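import Pool.Agent.Q19.VaS

set_option autoImplicit false

namespace Pool.Agent.Results.MP_4bfeea_al.BiggerCentre

open Pool.Agent.Q19.Va

universe u

/-- For `sl_2` over an algebraically closed field of odd characteristic `p` and every non-critical
level `κ ≠ -2`, the centre of the universal affine vertex algebra contains a vector outside the
`p`-centre. -/
theorem result (K : Type u) [Field K] [IsAlgClosed K] (p : ℕ) [Fact p.Prime] [CharP K p]
    (hp : p ≠ 2) (κ : K) (hκ : κ ≠ -2) :
    ∃ v : VV K κ, v ∉ pCentre K p κ ∧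
      (∀ (x : Sl2 K) (n : ℤ), 0 ≤ n → op x n v = 0) ∧
      ∀ A : VertexAlgebra K (VV K κ), A.one = one κ →
        (∀ (x : Sl2 K) (n : ℤ) (u : VV K κ), A.prod n (op x (-1) (one κ)) u = op x n u) →
        v ∈ A.centre :=
  final K p hp κ hκ

end Pool.Agent.Results.MP_4bfeea_al.BiggerCentre
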